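import Mathlib

/-! MP_ed6ab2_an, project EQ: shared definitions.
A closed Riemannian surface is presented as `M = Ω / G`: `Ω` open connected in `ℂ` with the
conformal metric `e^{2u}|dz|²`, `G` acting freely, properly discontinuously and cocompactly by
holomorphic isometries. -/

set_option autoImplicit false

namespace Pool.Agent.EQ

open MeasureTheory Filter Topology Set
open scoped ContDiff

noncomputable section

/-- partial derivative in the direction `1` -/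
def dx (f : ℂ → ℝ) (z : ℂ) : ℝ := fderiv ℝ f z 1

/-- partial derivative in the direction `i` -/
def dy (f : ℂ → ℝ) (z : ℂ) : ℝ := fderiv ℝ f z Complex.I

/-- the flat Laplacian `f_xx + f_yy` -/
def lap (f : ℂ → ℝ) (z : ℂ) : ℝ := dx (dx f) z + dy (dy f) z

/-- minus the Gauss curvature of the metric `e^{2u}|dz|²` -/
def kk (u : ℂ → ℝ) (z : ℂ) : ℝ := Real.exp (-2 * u z) * lap u z

/-- The geodesic vector field of `e^{2u}|dz|²` in the coordinates `(z, θ)` of the unit tangent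
bundle (the unit vector at `z` with direction `e^{iθ}`). -/
def XX (u : ℂ → ℝ) (v : ℂ × ℝ) : ℂ × ℝ :=
  ((Real.exp (-u v.1) : ℂ) * Complex.exp (v.2 * Complex.I),
    Real.exp (-u v.1) * (-(dx u v.1) * Real.sin v.2 + dy u v.1 * Real.cos v.2))

/-- the orthogonal horizontal field, `∂_θ X` -/
def HH (u : ℂ → ℝ) (v : ℂ × ℝ) : ℂ × ℝ :=
  ((Real.exp (-u v.1) : ℂ) * (Complex.I * Complex.exp (v.2 * Complex.I)),
    Real.exp (-u v.1) * (-(dx u v.1) * Real.cos v.2 - dy u v.1 * Real.sin v.2))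

/-- the vertical field -/
def VV : ℂ × ℝ := (0, 1)

/-- A closed Riemannian surface `Ω / G` with one global isothermal coordinate on the cover. -/
structure Pres where
  Ω : Set ℂ
  isOpen : IsOpen Ω
  conn : IsConnected Ω
  u : ℂ → ℝ
  smooth : ContDiffOn ℝ ∞ u Ω
  G : Type
  [grp : Group G]
  [cnt : Countable G]
  act : G → ℂ → ℂ
  act_mem : ∀ g, ∀ z ∈ Ω, act g z ∈ Ω
  act_one : ∀ z ∈ Ω, act 1 z = z
  act_mul : ∀ g h, ∀ z ∈ Ω, act (g * h) z = act g (act h z)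
  holo : ∀ g, DifferentiableOn ℂ (act g) Ω
  isom : ∀ g, ∀ z ∈ Ω, u (act g z) + Real.log ‖deriv (act g) z‖ = u z
  free : ∀ g, ∀ z ∈ Ω, act g z = z → g = 1
  proper : ∀ K ⊆ Ω, IsCompact K → {g | (act g '' K ∩ K).Nonempty}.Finite
  cocompact : ∃ K ⊆ Ω, IsCompact K ∧ ∀ z ∈ Ω, ∃ g, act g z ∈ K

attribute [instance] Pres.grp Pres.cnt

/-- the phase space over `Ω` -/
def Pres.S (P : Pres) : Set (ℂ × ℝ) := P.Ω ×ˢ univ

/-- action of `g` on unit vectors -/
def Pres.actS (P : Pres) (g : P.G) (v : ℂ × ℝ) : ℂ × ℝ :=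
  (P.act g v.1, v.2 + (deriv (P.act g) v.1).arg)

/-- a complete unit speed geodesic (with its direction) -/
def Pres.IsGeod (P : Pres) (c : ℝ → ℂ × ℝ) : Prop :=
  ∀ t, c t ∈ P.S ∧ HasDerivAt c (XX P.u (c t)) t

/-- a set of unit vectors of `Ω / G` (lifted): measurable, `2π`-periodic in `θ`, `G`-invariant -/
structure Pres.IsSetUM (P : Pres) (A : Set (ℂ × ℝ)) : Prop where
  meas : MeasurableSet A
  per : ∀ v ∈ P.S, (v.1, v.2 + 2 * Real.pi) ∈ A ↔ v ∈ A
  inv : ∀ g, ∀ v ∈ P.S, P.actS g v ∈ A ↔ v ∈ A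

/-- invariance under the geodesic flow -/
def Pres.FlowInv (P : Pres) (A : Set (ℂ × ℝ)) : Prop :=
  ∀ c, P.IsGeod c → ∀ s t, c s ∈ A ↔ c t ∈ A

/-- The geodesic flow of `Ω / G` is ergodic: every invariant measurable set of unit vectors is null
or has null complement (Liouville measure and Lebesgue measure have the same null sets). -/
def Pres.Ergodic (P : Pres) : Prop :=
  ∀ A, P.IsSetUM A → P.FlowInv A → volume (P.S ∩ A) = 0 ∨ volume (P.S \ A) = 0

/-- a measurable fundamental domain -/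
structure Pres.IsFund (P : Pres) (F : Set ℂ) : Prop where
  meas : MeasurableSet F
  sub : F ⊆ P.Ω
  uniq : ∀ᵐ z, z ∈ P.Ω → ∃! g : P.G, P.act g z ∈ F

/-- the area measure `e^{2u} dx dy` on `Ω` -/
def Pres.area (P : Pres) : Measure ℂ :=
  (volume.restrict P.Ω).withDensity (fun z => ENNReal.ofReal (Real.exp (2 * P.u z)))

/-- a smooth `G`-invariant function -/
structure Pres.IsFun (P : Pres) (f : ℂ → ℝ) : Prop where
  smooth : ContDiffOn ℝ ∞ f P.Ω
  inv : ∀ g, ∀ z ∈ P.Ω, f (P.act g z) = f z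

/-- a (smooth) eigenfunction of the Laplace-Beltrami operator of `Ω / G` -/
structure Pres.IsEigen (P : Pres) (f : ℂ → ℝ) (lam : ℝ) : Prop extends P.IsFun f where
  eq : ∀ z ∈ P.Ω, -lap f z = lam * Real.exp (2 * P.u z) * f z

/-- an open set of `Ω / G` (lifted) whose boundary is a null set -/
structure Pres.IsJordan (P : Pres) (D : Set ℂ) : Prop where
  isOpen : IsOpen D
  sub : D ⊆ P.Ω
  inv : ∀ g, ∀ z ∈ P.Ω, P.act g z ∈ D ↔ z ∈ D
  bdry : volume (frontier D ∩ P.Ω) = 0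

/-- THE CORE THEOREM (target of the project) in the language of `Pres`. -/
def CoreStatement : Prop :=
  ∀ ε : ℝ, 0 < ε → ∃ P : Pres, P.Ergodic ∧
    ∃ (D F : Set ℂ) (ψ : ℕ → ℂ → ℝ) (lam : ℕ → ℝ),
      P.IsJordan D ∧ P.IsFund F ∧ 0 < P.area (F ∩ D) ∧ P.area F < ⊤ ∧
      (∀ j, P.IsEigen (ψ j) (lam j)) ∧ Tendsto lam atTop atTop ∧
      (∀ j, ∫ z in F, ψ j z ^ 2 ∂P.area = 1) ∧
      (∀ j, ∫ z in F ∩ D, ψ j z ^ 2 ∂P.area ≤ ε * ((P.area (F ∩ D)).toReal / (P.area F).toReal))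

end

end Pool.Agent.EQ
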